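import Pool.Agent.Y348.CP.Word

/-!
# The class P conjecture fails over every alphabet with at least three letters

For every `k ≥ 3` there is a primitive morphism `φ` over `k` letters with a palindromic fixed
point `u` such that no primitive morphism of class P' has a fixed point with the language of `u`;
the identity is the only non-erasing morphism of class P' that maps the language of `u` into
itself, and the morphisms of class P' (erasing or not) that have a fixed point with the language
of `u` fix `u` up to finitely many letters: `ψ(u) = z u` or `z ψ(u) = u` for a finite word `z`.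
-/

namespace Pool.Agent.Results.MP_caf222_co.AllAlphabets

open Pool.Helper223.CP Pool.Helper223.CP.J1b Pool.Helper223.CP.J19 Pool.Helper223.CP.J20
  Pool.Helper223.CP.J21 Pool.Y348.CP

/-- For every `k ≥ 3` there are a primitive morphism `φ` over `k` letters and a palindromic fixed
point `u` of `φ` such that the identity is the only non-erasing morphism of class P' that maps the
language of `u` into itself, and no primitive morphism of class P' has a fixed point with the
language of `u`. Moreover, every morphism `ψ` of class P', erasing or not, that has a fixed point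
with the language of `u` satisfies `z ψ(u) = u` or `ψ(u) = z u` for some finite word `z` (the
image `ψ(u)` is infinite), and every morphism `ψ` of class P' that maps the language of `u` into
itself satisfies `|ψ(w)| ≤ |w| + C` for all factors `w` of `u`, with a constant `C` depending only
on `ψ`. -/
theorem result (k : ℕ) (hk : 3 ≤ k) : ∃ (φ : Fin k → List (Fin k)) (u : ℕ → Fin k),
    IsPrimitive φ ∧ IsFixedPoint φ u ∧ IsPalindromic u ∧
    (∀ ψ : Fin k → List (Fin k), ClassP' ψ → (∀ a, ψ a ≠ []) →
      (∀ w ∈ language u, ap ψ w ∈ language u) → ψ = fun a => [a]) ∧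
    (∀ ψ : Fin k → List (Fin k), ClassP' ψ → IsPrimitive ψ → ∀ v : ℕ → Fin k,
      IsFixedPoint ψ v → language v ≠ language u) ∧
    (∀ ψ : Fin k → List (Fin k), ClassP' ψ → ∀ v : ℕ → Fin k,
      IsFixedPoint ψ v → language v = language u →
      (∀ m : ℕ, ∃ n : ℕ, m ≤ (ap ψ (pref u n)).length) ∧
      ∃ z : List (Fin k), (∀ n : ℕ, ∃ m : ℕ, z ++ ap ψ (pref u n) = pref u m) ∨
        (∀ n : ℕ, ∃ m : ℕ, ap ψ (pref u n) <+: z ++ pref u m)) ∧
    (∀ ψ : Fin k → List (Fin k), ClassP' ψ → (∀ w ∈ language u, ap ψ w ∈ language u) →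
      ∃ C : ℕ, ∀ w ∈ language u, (ap ψ w).length ≤ w.length + C) := by
  obtain ⟨Φ, a, m, Θ, ρ, I, N, hN⟩ := inv_all' k hk
  obtain ⟨u, hu, hlu, hup⟩ := exists_fixed' Φ a (m ++ [a]) I.im (by simp) I.ne
  have hl : ∀ w, w ∈ language u ↔ ∃ v, LX v ∧ w <:+: ap Θ v := fun w => (hlu w).trans (I.lang w)
  have hpre : ∀ n, ∃ v L, n ≤ L ∧ ap Θ v = pref u L := by
    intro n
    obtain ⟨v, hv⟩ := hN n
    obtain ⟨h1, h2⟩ := hup (n + N)
    refine ⟨v, _, ?_, hv.symm.trans h2⟩
    omega
  have hfix : ∀ (ψ : Fin k → List (Fin k)) (v : ℕ → Fin k), IsFixedPoint ψ v →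
      language v = language u → ∀ w ∈ language u, ap ψ w ∈ language u := by
    intro ψ v hv hvu w hw
    rw [← hvu] at hw ⊢
    obtain ⟨n, hn⟩ := hw
    refine ⟨(ap ψ (pref v n)).length, ?_⟩
    rw [← hv.1 n]
    exact ap_inf ψ hn
  have hid : ∀ ψ : Fin k → List (Fin k), ClassP' ψ → (∀ a, ψ a ≠ []) →
      (∀ w ∈ language u, ap ψ w ∈ language u) → ψ = fun a => [a] := by
    intro ψ hψ hne hL
    exact funext (ident I hψ (fun w hw => (hl _).1 (hL w ((hl w).2 hw))) hne)
  refine ⟨Φ, u, I.prim, hu, ?_, hid, ?_, ?_, ?_⟩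
  · have hinj : Function.Injective (ap Θ) := by
      intro v w h
      have h1 := congrArg (ap ρ) h
      rwa [apc, apc, show (fun x => ap ρ (Θ x)) = fun x => [x] from funext I.rt, ap_single,
        ap_single] at h1
    refine (LX_palindromes.image hinj.injOn).mono ?_
    rintro _ ⟨w, ⟨hw1, hw2⟩, rfl⟩
    refine ⟨(hl _).2 ⟨w, hw1, List.infix_rfl⟩, ?_⟩
    have h2 : w.reverse = w := hw2
    unfold IsPalindrome
    rw [apr' I.pal, h2]
  · intro ψ hψ hprim v hv hvu
    obtain ⟨hne, c₀, hc⟩ := prim_expand (by omega) hprim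
    rw [hid ψ hψ hne (hfix ψ v hv hvu)] at hc
    simp at hc
  · intro ψ hψ v hv hvu
    have hL := hfix ψ v hv hvu
    have hL' : ∀ w, (∃ v, LX v ∧ w <:+: ap Θ v) → ∃ v, LX v ∧ ap ψ w <:+: ap Θ v :=
      fun w hw => (hl _).1 (hL w ((hl w).2 hw))
    rcases proj_cases I hψ hL' with h | h
    · obtain ⟨z, hz⟩ := shift I h hL'
      obtain ⟨h1, h2⟩ := word_shift hpre hz
      exact ⟨h1, z, h2⟩
    · exfalso
      obtain ⟨K, hK⟩ := empty_bounded I hL' h
      obtain ⟨n, hn⟩ := hv.2 (K + 1)
      have h1 : pref v n ∈ language u := by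
        rw [← hvu]
        exact ⟨n, List.infix_rfl⟩
      have h2 := hK _ ((hl _).1 h1)
      omega
  · intro ψ hψ hL
    obtain ⟨C, hC⟩ := bounded I hψ (fun w hw => (hl _).1 (hL w ((hl w).2 hw)))
    exact ⟨C, fun w hw => hC w ((hl w).1 hw)⟩

end Pool.Agent.Results.MP_caf222_co.AllAlphabets
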